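import Pool.Agent.Q102.RG.List

/-!
MP_1f20e3_co: every graph `G` of reduced genus `g` satisfies
`ch(G) ≤ max (310 g + 311, ω(G) + 1)`.
-/

namespace Pool.Agent.Results.MP_1f20e3_co.OmegaPlusOne

open Q102.RG

theorem result (g : ℕ) (V : Type) [Finite V] (G : SimpleGraph V) (hG : HasReducedGenus G g) :
    Choosable G (max (310 * g + 311) (G.cliqueNum + 1)) := by
  have : Fintype V := Fintype.ofFinite V
  have h := choosable_of g (max (310 * (g + 1)) G.cliqueNum) hG (le_max_left _ _) (le_max_right _ _)
  have h1 : max (310 * (g + 1)) G.cliqueNum + 1 = max (310 * g + 311) (G.cliqueNum + 1) := by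
    omega
  rw [h1] at h
  exact h

end Pool.Agent.Results.MP_1f20e3_co.OmegaPlusOne
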